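import Mathlib
import Pool.Agent.Hhelper18.DB.Final

/-!
# A normal variety that is pre-`⌈n/2⌉`-Du Bois but not pre-`n`-Du Bois

The variety is `X = Spec A` with `A = ⨁_m H⁰(Q₅, 𝒪(3m))`, the affine cone over the smooth
`5`-dimensional quadric `Q₅` embedded by `𝒪(3)`; it has dimension `n = 6` and an isolated
singularity at the vertex `Z`.  The blow-up `X' → X` of the vertex is the total space of `𝒪(-3)`,
and its exceptional set `E ≅ Q₅` is smooth, so that `Z ← E → X'` is a cubical hyperresolution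
of `X` and the `p`-th Du Bois complex of `X` is the total complex `K` of
`Č(X', Ω^p) ⊕ Ω^p_Z → Č(E, Ω^p)` (see `Pool.Agent.Hhelper18.Hyper`, file `DB/Public.lean`).
The only obstruction is `H¹(Q₅, Ω⁴(3)) ≠ 0`: it gives `H¹` of the `4`-th Du Bois complex,
while everything vanishes for `p ≤ 3 = ⌈n/2⌉`.
-/

namespace Pool.Agent.Results.MP_aa861c_ag.HalfDuBois

open Pool.Agent.Hhelper18

/-- There is a normal (affine) complex variety `X = Spec A` of some dimension `n`, with a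
resolution square `Q`, that is pre-`⌈n/2⌉`-Du Bois but not pre-`n`-Du Bois. -/
theorem result : ∃ (n : ℕ) (A : Type) (_ : CommRing A) (_ : Algebra ℂ A) (Q : Hyper.Square A),
    IsDomain A ∧ IsIntegrallyClosed A ∧ Algebra.FiniteType ℂ A ∧ ringKrullDim A = n ∧
      Q.IsPreDuBois ⌈(n : ℚ) / 2⌉₊ ∧ ¬ Q.IsPreDuBois n := by
  obtain ⟨A, i1, i2, Q, h1, h2, h3, h4, h5, h6⟩ := DB.final
  have hc : ⌈((6 : ℕ) : ℚ) / 2⌉₊ = 3 := by
    have : ((6 : ℕ) : ℚ) / 2 = ((3 : ℕ) : ℚ) := by norm_num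
    rw [this, Nat.ceil_natCast]
  refine ⟨6, A, i1, i2, Q, h1, h2, h3, ?_, ?_, h6⟩
  · rw [h4]; rfl
  · rw [hc]; exact h5

end Pool.Agent.Results.MP_aa861c_ag.HalfDuBois
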