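import Mathlib
import Pool.Agent.Hhelper18.DR.Final

/-!
# A normal variety that is pre-`⌊n/2⌋`-rational but not pre-`n`-rational

The variety is `X = Spec A` with `A = ⨁_m H⁰(Q₅, 𝒪(3m))`, the affine cone over the smooth
`5`-dimensional quadric `Q₅` embedded by `𝒪(3)`; it has dimension `n = 6` and an isolated
singularity at the vertex `Z`.  The blow-up `X' → X` of the vertex has a smooth exceptional set
`E ≅ Q₅`, so that `Z ← E → X'` is a cubical hyperresolution of `X` and the `q`-th Du Bois complex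
of `X` is the total complex `K` of `Č(X', Ω^q) ⊕ Ω^q_Z → Č(E, Ω^q)` (see
`Pool.Agent.Hhelper18.Hyper`, files `DB/Public.lean` and `DR/Public.lean`).  Its dual is computed
through the Noether normalisation `B = ℂ[y₀, …, y₅] → A`, `y_i ↦ x_i³`: one has
`H^i(𝔻_X(K)) = Hom_{D(B)}(K, B[i])`.  For `q = 3, 4, 5, 6` the complex `K` is a bounded complex of
free `B`-modules that is exact except in degree `0`, or ends in a surjection; for `q = 2` it is a
module that is a fifth syzygy of the residue field of `B` at the origin, so that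
`Ext¹_B(K, B) = Ext⁶_B(ℂ, B) ≠ 0`.
-/

namespace Pool.Agent.Results.MP_aa861c_ag.HalfRational

open Pool.Agent.Hhelper18

/-- There is a normal (affine) complex variety `X = Spec A` of some dimension `n`, with a
resolution square `Q` and a finite homomorphism `g : ℂ[y₁, …, y_N] → A`, that is
pre-`⌊n/2⌋`-rational but not pre-`n`-rational. -/
theorem result : ∃ (n : ℕ) (A : Type) (_ : CommRing A) (_ : Algebra ℂ A) (Q : Hyper.Square A)
    (N : ℕ) (g : MvPolynomial (Fin N) ℂ →ₐ[ℂ] A),
    IsDomain A ∧ IsIntegrallyClosed A ∧ Algebra.FiniteType ℂ A ∧ ringKrullDim A = n ∧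
      g.toRingHom.Finite ∧ Q.IsPreRational g n ⌊(n : ℚ) / 2⌋₊ ∧ ¬ Q.IsPreRational g n n := by
  obtain ⟨A, i1, i2, Q, g, h1, h2, h3, h4, h5, h6, h7⟩ := DR.final
  have hc : ⌊((6 : ℕ) : ℚ) / 2⌋₊ = 3 := by
    have : ((6 : ℕ) : ℚ) / 2 = ((3 : ℕ) : ℚ) := by norm_num
    rw [this, Nat.floor_natCast]
  refine ⟨6, A, i1, i2, Q, 6, g, h1, h2, h3, ?_, h5, ?_, h7⟩
  · rw [h4]; rfl
  · rw [hc]; exact h6

end Pool.Agent.Results.MP_aa861c_ag.HalfRational
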